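import Pool.Agent.FHQ.StmtsG

/-!
# FHQ, row BIP: two families of tame pieces
-/

set_option autoImplicit false

open scoped BigOperators

noncomputable section

namespace Pool.Agent.FHQ.H90

/-- a vertex of large degree -/
theorem exists_deg {a b : ℕ} (F : Finset (Fin a × Fin b)) {c : ℝ} (ha : 0 < a)
    (h : c * (a : ℝ) * (b : ℝ) ≤ (F.card : ℝ)) :
    ∃ j : Fin a, c * (b : ℝ) ≤ ((Finset.univ.filter fun k : Fin b => (j, k) ∈ F).card : ℝ) := by
  classical
  by_contra hcon
  push Not at hcon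
  have h1 : F.card = ∑ j : Fin a, (Finset.univ.filter fun k : Fin b => (j, k) ∈ F).card := by
    rw [Finset.card_eq_sum_card_fiberwise (f := Prod.fst) (t := Finset.univ)
      (fun _ _ => Finset.mem_coe.2 (Finset.mem_univ _))]
    refine Finset.sum_congr rfl fun j _ => ?_
    refine Finset.card_bij (fun e _ => e.2) ?_ ?_ ?_
    · rintro ⟨j', k⟩ he
      rw [Finset.mem_filter] at he
      obtain ⟨h2, h3⟩ := he
      simp only at h3
      subst h3
      simp [h2]
    · rintro ⟨j1, k1⟩ h1 ⟨j2, k2⟩ h2 h3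
      rw [Finset.mem_filter] at h1 h2
      simp only at h3 h1 h2
      rw [h3, h1.2, h2.2]
    · intro k hk
      rw [Finset.mem_filter] at hk
      exact ⟨(j, k), by rw [Finset.mem_filter]; exact ⟨hk.2, rfl⟩, rfl⟩
  have h2 : (F.card : ℝ) < ∑ _j : Fin a, c * (b : ℝ) := by
    rw [h1]
    push_cast
    have : Nonempty (Fin a) := ⟨⟨0, ha⟩⟩
    exact Finset.sum_lt_sum_of_nonempty Finset.univ_nonempty fun j _ => hcon j
  rw [Finset.sum_const, Finset.card_univ, Fintype.card_fin, nsmul_eq_mul] at h2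
  nlinarith

theorem card_le_fst {a b : ℕ} (F : Finset (Fin a × Fin b)) (S : Finset (Fin a))
    (h : ∀ e ∈ F, e.1 ∈ S) : (F.card : ℝ) ≤ (S.card : ℝ) * (b : ℝ) := by
  classical
  have h1 : F ⊆ S ×ˢ (Finset.univ : Finset (Fin b)) := by
    intro e he
    rw [Finset.mem_product]
    exact ⟨h e he, Finset.mem_univ _⟩
  have h2 := Finset.card_le_card h1
  rw [Finset.card_product, Finset.card_univ, Fintype.card_fin] at h2
  exact_mod_cast h2

theorem card_le_snd {a b : ℕ} (F : Finset (Fin a × Fin b)) (S : Finset (Fin b))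
    (h : ∀ e ∈ F, e.2 ∈ S) : (F.card : ℝ) ≤ (a : ℝ) * (S.card : ℝ) := by
  classical
  have h1 : F ⊆ (Finset.univ : Finset (Fin a)) ×ˢ S := by
    intro e he
    rw [Finset.mem_product]
    exact ⟨Finset.mem_univ _, h e he⟩
  have h2 := Finset.card_le_card h1
  rw [Finset.card_product, Finset.card_univ, Fintype.card_fin] at h2
  exact_mod_cast h2

/-- BIP -/
theorem bip (hBlc : BlcStmt) (hBos : BosStmt) (hLow : LowStmt) : BipStmt := by
  classical
  intro p _ K _ A N m a b P Q E α hm hα hP hQ hE hcard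
  set M : ℕ := N + 2 * m with hM
  set C : ℕ := 4 * (1 + N * M + N * N + m * m) with hC
  rcases Nat.eq_zero_or_pos a with ha | ha
  · refine ⟨0, Or.inl ?_⟩
    subst ha
    simp only [Nat.cast_zero, mul_zero]
    positivity
  rcases Nat.eq_zero_or_pos b with hb | hb
  · refine ⟨0, Or.inr ?_⟩
    subst hb
    simp only [Nat.cast_zero, mul_zero]
    positivity
  have ha' : (0 : ℝ) < a := by exact_mod_cast ha
  have hb' : (0 : ℝ) < b := by exact_mod_cast hb
  set E1 := E.filter fun e => OneS A N m M (P e.1) (Q e.2) with hE1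
  set E2 := E.filter fun e => OneS A N m M (Q e.2) (P e.1) with hE2
  set E3 := E.filter fun e => LowP m (P e.1) with hE3
  set E4 := E.filter fun e => LowP m (Q e.2) with hE4
  have hcov : E ⊆ ((E1 ∪ E2) ∪ (E3 ∪ E4)) := by
    intro e he
    obtain ⟨x, hx1, hx2⟩ := hE e he
    simp only [Finset.mem_union, hE1, hE2, hE3, hE4, Finset.mem_filter]
    rcases hBlc p K A N m (P e.1) (Q e.2) x hm (hP _) (hQ _) hx1 hx2 with h | h | h | h
    · exact Or.inl (Or.inl ⟨he, h⟩)
    · exact Or.inl (Or.inr ⟨he, h⟩)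
    · exact Or.inr (Or.inl ⟨he, h⟩)
    · exact Or.inr (Or.inr ⟨he, h⟩)
  have hsum : E.card ≤ (E1.card + E2.card) + (E3.card + E4.card) :=
    (Finset.card_le_card hcov).trans ((Finset.card_union_le _ _).trans
      (add_le_add (Finset.card_union_le _ _) (Finset.card_union_le _ _)))
  have hsum' : (E.card : ℝ) ≤ (E1.card + E2.card) + (E3.card + E4.card) := by exact_mod_cast hsum
  have hCle1 : (4 * (1 + N * M + N * N) : ℕ) ≤ C := by
    rw [hC]
    exact Nat.mul_le_mul_left 4 (Nat.le_add_right _ _)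
  have hCle2 : (4 * (m * m) : ℕ) ≤ C := by
    rw [hC]
    exact Nat.mul_le_mul_left 4 (Nat.le_add_left _ _)
  have key1 : ∀ (c t : ℕ) (u : ℝ), α / 4 * u ≤ (c : ℝ) → c ≤ (1 + N * M + N * N) * t →
      α * u ≤ (C : ℝ) * (t : ℝ) := by
    intro c t u h1 h2
    have h3 : (4 * c : ℕ) ≤ C * t := by
      calc 4 * c ≤ 4 * ((1 + N * M + N * N) * t) := Nat.mul_le_mul_left 4 h2
        _ = (4 * (1 + N * M + N * N)) * t := by ring
        _ ≤ C * t := Nat.mul_le_mul_right t hCle1
    have h4 : (4 : ℝ) * (c : ℝ) ≤ (C : ℝ) * (t : ℝ) := by exact_mod_cast h3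
    linarith
  have key2 : ∀ (c t : ℕ) (u : ℝ), α / 4 * u ≤ (c : ℝ) → c ≤ m * m * t →
      α * u ≤ (C : ℝ) * (t : ℝ) := by
    intro c t u h1 h2
    have h3 : (4 * c : ℕ) ≤ C * t := by
      calc 4 * c ≤ 4 * (m * m * t) := Nat.mul_le_mul_left 4 h2
        _ = (4 * (m * m)) * t := by ring
        _ ≤ C * t := Nat.mul_le_mul_right t hCle2
    have h4 : (4 : ℝ) * (c : ℝ) ≤ (C : ℝ) * (t : ℝ) := by exact_mod_cast h3
    linarith
  by_cases c1 : α / 4 * (a : ℝ) * (b : ℝ) ≤ (E1.card : ℝ)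
  · obtain ⟨j, hj⟩ := exists_deg E1 ha c1
    obtain ⟨y, hy⟩ := hBos p K A N m M b (P j) Q (Finset.univ.filter fun k => (j, k) ∈ E1) (hP j)
      (fun k hk => by
        have := (Finset.mem_filter.1 hk).2
        rw [hE1, Finset.mem_filter] at this
        exact this.2)
    exact ⟨y, Or.inr (key1 _ _ _ hj hy)⟩
  by_cases c2 : α / 4 * (a : ℝ) * (b : ℝ) ≤ (E2.card : ℝ)
  · set F := E2.map ⟨Prod.swap, Prod.swap_injective⟩ with hF
    have h1 : α / 4 * (b : ℝ) * (a : ℝ) ≤ (F.card : ℝ) := by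
      rw [hF, Finset.card_map]
      linarith
    obtain ⟨k, hk⟩ := exists_deg F hb h1
    obtain ⟨y, hy⟩ := hBos p K A N m M a (Q k) P (Finset.univ.filter fun j => (k, j) ∈ F) (hQ k)
      (fun j hj => by
        have := (Finset.mem_filter.1 hj).2
        rw [hF, Finset.mem_map] at this
        obtain ⟨e, he, h2⟩ := this
        have h3 : e = (j, k) := by
          have h4 : Prod.swap e = (k, j) := h2
          rw [← Prod.swap_swap e, h4, Prod.swap_prod_mk]
        rw [h3, hE2, Finset.mem_filter] at he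
        exact he.2)
    exact ⟨y, Or.inl (key1 _ _ _ hk hy)⟩
  by_cases c3 : α / 4 * (a : ℝ) * (b : ℝ) ≤ (E3.card : ℝ)
  · set S := Finset.univ.filter fun j : Fin a => LowP m (P j) with hS
    have h1 := card_le_fst E3 S (fun e he => by
      rw [hE3, Finset.mem_filter] at he
      rw [hS, Finset.mem_filter]
      exact ⟨Finset.mem_univ _, he.2⟩)
    have h2 : α / 4 * (a : ℝ) ≤ (S.card : ℝ) := le_of_mul_le_mul_right (c3.trans h1) hb'
    obtain ⟨y, hy⟩ := hLow p K A m a P S hm (fun j hj => (Finset.mem_filter.1 hj).2)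
    exact ⟨y, Or.inl (key2 _ _ _ h2 hy)⟩
  · push Not at c1 c2 c3
    have c4 : α / 4 * (a : ℝ) * (b : ℝ) ≤ (E4.card : ℝ) := by linarith
    set S := Finset.univ.filter fun k : Fin b => LowP m (Q k) with hS
    have h1 := card_le_snd E4 S (fun e he => by
      rw [hE4, Finset.mem_filter] at he
      rw [hS, Finset.mem_filter]
      exact ⟨Finset.mem_univ _, he.2⟩)
    have h2 : α / 4 * (b : ℝ) ≤ (S.card : ℝ) := by
      refine le_of_mul_le_mul_left ?_ ha'
      calc (a : ℝ) * (α / 4 * (b : ℝ)) = α / 4 * (a : ℝ) * (b : ℝ) := by ring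
        _ ≤ _ := c4.trans h1
    obtain ⟨y, hy⟩ := hLow p K A m b Q S hm (fun j hj => (Finset.mem_filter.1 hj).2)
    exact ⟨y, Or.inr (key2 _ _ _ h2 hy)⟩


end Pool.Agent.FHQ.H90
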