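import Pool.Agent.FHQ.StmtsO

/-!
# FHQ, row AVS: averaging over the subgrids
-/

set_option autoImplicit false

open scoped BigOperators

namespace Pool.Agent.FHQ.H90

/-- the case of one coordinate -/
theorem avs_one (m : ℕ) : ∀ (k : ℕ) (f : Fin (m + k) → ℕ), ∃ t : Fin m → Fin (m + k),
    StrictMono t ∧ (∑ a, f a) * m ≤ (∑ a, f (t a)) * (m + k) := by
  intro k
  induction k with
  | zero =>
    intro f
    exact ⟨id, strictMono_id, le_refl _⟩
  | succ k ih =>
    intro f
    obtain ⟨i, hi⟩ : ∃ i : Fin (m + k + 1), f i * (m + k + 1) ≤ ∑ a, f a := by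
      by_contra hcon
      push Not at hcon
      have h1 : ∑ i : Fin (m + k + 1), (∑ a, f a) < ∑ i : Fin (m + k + 1), f i * (m + k + 1) :=
        Finset.sum_lt_sum_of_nonempty Finset.univ_nonempty fun i _ => hcon i
      rw [← Finset.sum_mul, Finset.sum_const, Finset.card_univ, Fintype.card_fin, smul_eq_mul,
        mul_comm] at h1
      exact lt_irrefl _ h1
    obtain ⟨t, ht, h2⟩ := ih fun a => f (i.succAbove a)
    refine ⟨fun a => i.succAbove (t a), fun a b hab =>
      Fin.strictMono_succAbove i (ht hab), ?_⟩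
    have h3 : ∑ a : Fin (m + k + 1), f a = f i + ∑ a : Fin (m + k), f (i.succAbove a) :=
      Fin.sum_univ_succAbove f i
    have e : (∑ a : Fin (m + (k + 1)), f a) = ∑ a : Fin (m + k + 1), f a := rfl
    rw [e]
    set S := ∑ a : Fin (m + k + 1), f a with hS
    set S' := ∑ a : Fin (m + k), f (i.succAbove a) with hS'
    set S'' := ∑ a : Fin m, f (i.succAbove (t a)) with hS''
    rcases Nat.eq_zero_or_pos m with h0 | h0
    · subst h0
      rw [mul_zero]
      exact Nat.zero_le _
    have h4 : S * (m + k) ≤ S' * (m + k + 1) := by nlinarith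
    have h5 : (m + k) * (S * m) ≤ (m + k) * (S'' * (m + (k + 1))) := by
      calc (m + k) * (S * m) = (S * (m + k)) * m := by ring
        _ ≤ (S' * (m + k + 1)) * m := Nat.mul_le_mul_right _ h4
        _ = (S' * m) * (m + k + 1) := by ring
        _ ≤ (S'' * (m + k)) * (m + k + 1) := Nat.mul_le_mul_right _ h2
        _ = _ := by ring
    exact Nat.le_of_mul_le_mul_left h5 (by omega)

theorem sum_cons {D n : ℕ} (w : (Fin (D + 1) → Fin n) → ℕ) :
    ∑ η, w η = ∑ t : Fin n, ∑ η : Fin D → Fin n, w (Fin.cons t η) := by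
  rw [← Fintype.sum_prod_type']
  exact (Fintype.sum_equiv (Fin.consEquiv fun _ => Fin n) (fun p : Fin n × (Fin D → Fin n) =>
    w (Fin.cons p.1 p.2)) w (fun p => rfl)).symm

/-- AVS -/
theorem avs : AvsStmt := by
  intro D m n hmn
  induction D with
  | zero =>
    intro w
    refine ⟨fun j => j.elim0, fun j => j.elim0, ?_⟩
    rw [pow_zero, pow_zero, mul_one, mul_one]
    apply le_of_eq
    rw [Fintype.sum_unique, Fintype.sum_unique]
    congr 1
    exact Subsingleton.elim _ _
  | succ D ih =>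
    intro w
    obtain ⟨t, ht, h1⟩ : ∃ t : Fin m → Fin n, StrictMono t ∧
        (∑ a, (∑ η : Fin D → Fin n, w (Fin.cons a η))) * m ≤
          (∑ a, (∑ η : Fin D → Fin n, w (Fin.cons (t a) η))) * n := by
      obtain ⟨k, rfl⟩ := Nat.exists_eq_add_of_le hmn
      exact avs_one m k _
    obtain ⟨s, hs, h2⟩ := ih fun η => ∑ a, w (Fin.cons (t a) η)
    refine ⟨Fin.cons t s, fun j => ?_, ?_⟩
    · refine Fin.cases ?_ (fun i => ?_) j
      · rw [Fin.cons_zero]; exact ht
      · rw [Fin.cons_succ]; exact hs i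
    · have h3 : ∑ η : Fin (D + 1) → Fin m, w (sg (Fin.cons t s) η) =
          ∑ η : Fin D → Fin m, ∑ a, w (Fin.cons (t a) (sg s η)) := by
        rw [sum_cons, Finset.sum_comm]
        refine Finset.sum_congr rfl fun η _ => Finset.sum_congr rfl fun a _ => ?_
        congr 1
        funext j
        refine Fin.cases ?_ (fun i => ?_) j
        · rfl
        · rfl
      rw [h3, sum_cons w]
      rw [Finset.sum_comm] at h2
      calc (∑ t : Fin n, ∑ η : Fin D → Fin n, w (Fin.cons t η)) * m ^ (D + 1)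
          = ((∑ a, (∑ η : Fin D → Fin n, w (Fin.cons a η))) * m) * m ^ D := by ring
        _ ≤ ((∑ a, (∑ η : Fin D → Fin n, w (Fin.cons (t a) η))) * n) * m ^ D :=
            Nat.mul_le_mul_right _ h1
        _ = ((∑ a, (∑ η : Fin D → Fin n, w (Fin.cons (t a) η))) * m ^ D) * n := by ring
        _ ≤ ((∑ η : Fin D → Fin m, ∑ a, w (Fin.cons (t a) (sg s η))) * n ^ D) * n :=
            Nat.mul_le_mul_right _ h2
        _ = _ := by ring


end Pool.Agent.FHQ.H90
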